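import Pool.Agent.H40.LamDP.Dp
import Pool.Agent.H89.LC.SSS

/-!
# The core: a list kill on a plane graph with 57 vertices

`cE` edges, `cF` facial triangles, `cL` lists (colours `0`, `1` common, `2, 3, 4, 5` palette; the
lists of the corners `0`, `1`, `2` play no role here).
-/

set_option autoImplicit false

namespace Pool.Agent.H40.LamDP

/-- edges -/
def cE : List (ℕ × ℕ) := [
  (0,1), (0,2), (0,3), (0,5), (0,10), (0,14), (0,26), (0,28), (0,30), (0,33), (0,35), (0,36),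
  (0,37), (0,42), (0,44), (0,50), (0,52), (0,54), (0,55), (1,2), (1,4), (1,5), (1,8), (1,20),
  (1,29), (1,31), (2,30), (2,32), (3,4), (3,6), (3,8), (3,9), (3,10), (3,12), (4,8), (5,6),
  (5,7), (5,8), (5,11), (5,20), (5,24), (5,26), (5,27), (6,7), (6,9), (6,11), (6,12), (7,8),
  (7,9), (8,9), (10,11), (10,12), (11,12), (13,14), (13,15), (13,16), (13,19), (13,26),
  (13,28), (14,15), (14,17), (14,20), (14,28), (14,44), (14,45), (14,46), (14,47), (15,16),
  (15,18), (16,18), (16,19), (17,18), (17,20), (17,21), (18,19), (18,21), (19,20), (19,21),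
  (19,22), (19,23), (19,26), (20,21), (20,22), (20,24), (20,29), (20,45), (22,23), (22,25),
  (23,25), (23,26), (24,25), (24,27), (25,26), (25,27), (26,27), (26,28), (29,31), (29,33),
  (29,34), (29,35), (29,36), (29,37), (29,38), (29,40), (29,45), (29,50), (29,52), (29,53),
  (30,32), (30,33), (31,32), (31,34), (32,33), (32,34), (33,34), (33,35), (35,36), (36,40),
  (36,42), (36,43), (37,38), (37,39), (37,42), (37,52), (38,39), (38,41), (39,41), (39,42),
  (40,41), (40,43), (41,42), (41,43), (42,43), (44,47), (44,49), (44,50), (44,51), (45,46),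
  (45,48), (45,50), (46,47), (46,49), (47,49), (48,49), (48,50), (48,51), (49,51), (50,51),
  (50,53), (52,53), (52,55), (52,56), (53,54), (53,56), (54,55), (54,56), (55,56)]

/-- facial triangles -/
def cF : List (ℕ × ℕ × ℕ) := [
  (4,1,8), (8,3,4), (8,1,5), (8,5,7), (7,5,6), (3,8,9), (9,8,7), (6,3,9), (9,7,6), (0,3,10),
  (10,3,12), (12,3,6), (10,12,11), (11,12,6), (11,6,5), (0,5,26), (0,26,28), (0,28,14),
  (2,0,30), (2,30,32), (30,0,33), (32,30,33), (33,0,35), (35,0,36), (36,0,42), (42,0,37),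
  (0,14,44), (37,0,52), (52,0,55), (55,0,54), (31,32,34), (34,32,33), (29,31,34), (29,34,33),
  (35,36,29), (29,33,35), (37,52,29), (5,1,20), (20,1,29), (5,20,24), (5,24,27), (26,5,27),
  (28,26,13), (13,14,28), (14,13,15), (15,13,16), (16,13,19), (19,13,26), (20,14,17),
  (15,16,18), (18,16,19), (17,18,21), (21,18,19), (20,17,21), (21,19,20), (20,19,22),
  (19,26,23), (22,19,23), (22,23,25), (27,24,25), (25,23,26), (26,27,25), (42,37,39),
  (29,36,40), (40,36,43), (43,36,42), (39,37,38), (38,37,29), (39,38,41), (40,43,41),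
  (42,39,41), (41,43,42), (44,14,47), (44,47,49), (14,20,45), (45,20,29), (45,29,50),
  (49,47,46), (46,47,14), (46,14,45), (45,50,48), (49,48,51), (51,48,50), (44,49,51),
  (51,50,44), (29,52,53), (53,50,29), (55,54,56), (56,54,53), (52,55,56), (56,53,52),
  (1,31,29), (0,44,50)]

/-- lists -/
def cL : List (List ℕ) := [
  [0,1,3,5], [0,1,4,5], [0,1,3,5], [0,1,2,5], [0,1,3,5], [0,1,2,3], [0,1,4,5], [0,1,3,4],
  [0,1,2,5], [0,1,4,5], [0,1,2,5], [0,1,3,5], [0,1,3,5], [0,1,4,5], [0,1,2,4], [0,1,2,3],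
  [0,1,3,4], [0,1,4,5], [0,1,3,4], [0,1,4,5], [0,1,3,4], [0,1,3,4], [0,1,4,5], [0,1,3,5],
  [0,1,2,4], [0,1,3,4], [0,1,2,4], [0,1,4,5], [0,1,2,5], [0,1,3,5], [0,1,2,4], [0,1,2,3],
  [0,1,2,4], [0,1,2,4], [0,1,2,5], [0,1,2,4], [0,1,3,5], [0,1,2,4], [0,1,2,3], [0,1,2,4],
  [0,1,2,5], [0,1,3,4], [0,1,3,5], [0,1,4,5], [0,1,2,5], [0,1,4,5], [0,1,2,4], [0,1,3,5],
  [0,1,3,4], [0,1,2,4], [0,1,2,5], [0,1,3,5], [0,1,2,3], [0,1,3,5], [0,1,2,5], [0,1,2,3],
  [0,1,3,5]]

/-- lists with the precoloured corners -/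
def cLt : List (List ℕ) := [2] :: [3] :: [0, 1] :: cL.drop 3

/-- the order, with the positions forgotten after each vertex -/
def cP : List (ℕ × List ℕ) := [
  (0,[]), (1,[]), (2,[]), (30,[]), (32,[2]), (34,[]), (33,[3]), (31,[3]), (29,[1,2]), (35,[2]),
  (36,[1]), (41,[]), (40,[]), (43,[1]), (42,[1,2]), (37,[]), (39,[2]), (38,[0,0,1]), (52,[1]),
  (55,[]), (54,[]), (56,[2]), (53,[1,1,1]), (50,[1]), (48,[]), (44,[]), (49,[]), (51,[0]),
  (45,[3,3]), (14,[]), (47,[4]), (46,[0,0,2]), (20,[2,2]), (17,[]), (18,[]), (21,[2]),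
  (19,[1]), (15,[]), (16,[3]), (13,[1,1]), (28,[4]), (26,[1,1]), (22,[]), (23,[3]), (25,[1,1]),
  (24,[]), (5,[4]), (27,[0,1,1,1]), (8,[]), (4,[3]), (3,[1]), (9,[]), (7,[3]), (6,[1,1]),
  (11,[3]), (12,[2]), (10,[0,0,0,0,0])]

theorem core_dp : dp cE cF cLt cP = true := by decide +kernel

theorem cP_all : (cP.all fun p => decide (p.1 < 57)) = true := by decide +kernel

theorem cLt_eq : ((List.range 57).all fun a =>
    decide (3 ≤ a → cLt.getD a [] = cL.getD a [])) = true := by decide +kernel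

theorem core4 (φ : ℕ → ℕ) (hE : ∀ e ∈ cE, φ e.1 ≠ φ e.2)
    (hL : ∀ a, 3 ≤ a → a < 57 → φ a ∈ cL.getD a [])
    (hF : ∀ f ∈ cF, ¬ (2 ≤ φ f.1 ∧ 2 ≤ φ f.2.1 ∧ 2 ≤ φ f.2.2))
    (h0 : φ 0 = 2) (h1 : φ 1 = 3) (h2 : φ 2 < 2) : False := by
  refine dp_sound cE cF cLt cP core_dp φ ?_ hE hF
  intro p hp
  have h3 : p.1 < 57 := by
    have := List.all_eq_true.1 cP_all p hp
    simpa using this
  by_cases h4 : 3 ≤ p.1
  · have h5 := List.all_eq_true.1 cLt_eq p.1 (List.mem_range.2 h3)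
    simp only [decide_eq_true_eq] at h5
    rw [h5 h4]
    exact hL p.1 h4 h3
  · have h5 : p.1 = 0 ∨ p.1 = 1 ∨ p.1 = 2 := by omega
    rcases h5 with h5 | h5 | h5
    · rw [h5, h0]
      decide
    · rw [h5, h1]
      decide
    · rw [h5]
      have h6 : φ 2 = 0 ∨ φ 2 = 1 := by omega
      rcases h6 with h6 | h6
      · rw [h6]
        decide
      · rw [h6]
        decide

/-- adjacency in the list of edges -/
def cadj (a b : ℕ) : Bool := cE.contains (a, b) || cE.contains (b, a)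

theorem cF_sides : (cF.all fun f => decide (f.1 < 57) && decide (f.2.1 < 57) &&
    decide (f.2.2 < 57) && cadj f.1 f.2.1 && cadj f.2.1 f.2.2 && cadj f.2.2 f.1) = true := by
  decide +kernel

theorem cL_le : ((List.range 57).all fun a => (cL.getD a []).all fun c => decide (c ≤ 5)) =
    true := by decide +kernel

theorem cadj_ne (φ : ℕ → ℕ) (hE : ∀ e ∈ cE, φ e.1 ≠ φ e.2) (a b : ℕ) (h : cadj a b = true) :
    φ a ≠ φ b := by
  unfold cadj at h
  rw [Bool.or_eq_true] at h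
  rcases h with h | h
  · exact hE (a, b) (List.contains_iff_mem.1 h)
  · exact (hE (b, a) (List.contains_iff_mem.1 h)).symm

/-- the same with the sets `full` on the faces -/
theorem core4_full (φ : ℕ → ℕ) (hE : ∀ e ∈ cE, φ e.1 ≠ φ e.2)
    (hL : ∀ a, 3 ≤ a → a < 57 → φ a ∈ cL.getD a [])
    (hF : ∀ f ∈ cF, (φ f.1, φ f.2.1, φ f.2.2) ∉ Pool.H89.LC.full)
    (h0 : φ 0 = 2) (h1 : φ 1 = 3) (h2 : φ 2 < 2) : False := by
  have h5 : ∀ a, a < 57 → φ a ≤ 5 := by
    intro a ha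
    by_cases h : 3 ≤ a
    · have h6 := List.all_eq_true.1 (List.all_eq_true.1 cL_le a (List.mem_range.2 ha)) _
        (hL a h ha)
      simpa using h6
    · have h7 : a = 0 ∨ a = 1 ∨ a = 2 := by omega
      rcases h7 with h7 | h7 | h7
      · rw [h7]
        omega
      · rw [h7]
        omega
      · rw [h7]
        omega
  refine core4 φ hE hL ?_ h0 h1 h2
  intro f hf ⟨ha, hb, hc⟩
  have h6 := List.all_eq_true.1 cF_sides f hf
  simp only [Bool.and_eq_true, decide_eq_true_eq] at h6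
  obtain ⟨⟨⟨⟨⟨h7, h8⟩, h9⟩, h10⟩, h11⟩, h12⟩ := h6
  exact hF f hf (Pool.H89.LC.mem_full _ _ _ ha (h5 _ h7) hb (h5 _ h8) hc (h5 _ h9)
    (cadj_ne φ hE _ _ h10) (cadj_ne φ hE _ _ h11) (cadj_ne φ hE _ _ h12))

end Pool.Agent.H40.LamDP
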