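import Pool.Agent.H40.LamDP.Core4
import Pool.Agent.H76.TRI.DCore
import Pool.Agent.H89.LC.Link

/-!
# The core patch kills `(2, 3, 0)` and `(2, 3, 1)`
-/

set_option autoImplicit false

namespace Pool.Agent.H40.LamDP

open Pool.TRI Pool.H89.LC

theorem core_linkE : linkE cE dCore.S = true := by decide +kernel

theorem core_linkF : linkF cF dCore.F = true := by decide +kernel

theorem core_okLists : okLists 57 cL = true := by decide +kernel

/-- the core patch -/
theorem core_kills : Kills LL fun a b c => a = 2 ∧ b = 3 ∧ (c = 0 ∨ c = 1) := by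
  refine kills_of_check dCore check_dCore checkIn_dCore (fun a => (cL.getD a []).toFinset)
    (fun a h1 h2 => okLists_spec core_okLists a h1 h2) (fun _ a b c => (a, b, c) ∈ full)
    (fun _ _ => kills_full) _ ?_
  rintro φ hE hL hF ⟨h0, h1, h2⟩
  refine core4_full φ (linkE_spec core_linkE hE) ?_
    (linkF_spec (K := fun a b c => (a, b, c) ∈ full) core_linkF hF) h0 h1 (by omega)
  intro a h3 h4
  exact List.mem_toFinset.1 (hL a h3 h4)

end Pool.Agent.H40.LamDP
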