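import Mathlib

/-!
# A verified dynamic program for list colourings with forbidden all-palette faces

Colours are numbers below `8`; colours `0`, `1` are the two common colours, colours `≥ 2` form the
palette.  `dp E F Ls prog` runs through the vertices in the order given by `prog` (after each new
vertex some positions of the frontier may be forgotten) and keeps the list of codes of the
colourings of the frontier.  If it returns `true` there is no colouring `φ` with `φ v` in the list
of `v`, proper on the edges of `E`, and with no face of `F` all of whose corners have colours `≥ 2`.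
-/

set_option autoImplicit false

namespace Pool.Agent.H40.LamDP

/-- position of `v` in a list, counted from `k` -/
def find (v : ℕ) : List ℕ → ℕ → Option ℕ
  | [], _ => none
  | w :: ws, k => cond (Nat.beq w v) (some k) (find v ws (k + 1))

/-- digit `k` of a code -/
def get : ℕ → ℕ → ℕ
  | 0, s => s % 8
  | k + 1, s => get k (s / 8)

/-- delete digit `k` of a code -/
def del : ℕ → ℕ → ℕ
  | 0, s => s / 8
  | k + 1, s => s % 8 + 8 * del k (s / 8)

/-- merge of two sorted lists, with removal of common elements -/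
def mrg : ℕ → List ℕ → List ℕ → List ℕ
  | 0, xs, ys => xs ++ ys
  | _ + 1, [], ys => ys
  | _ + 1, x :: xs, [] => x :: xs
  | n + 1, x :: xs, y :: ys =>
    cond (Nat.beq x y) (x :: mrg n xs ys)
      (cond (Nat.ble x y) (x :: mrg n xs (y :: ys)) (y :: mrg n (x :: xs) ys))

/-- split a list -/
def spl : List ℕ → List ℕ × List ℕ
  | [] => ([], [])
  | x :: l => match spl l with
    | (a, b) => (x :: b, a)

/-- sort with removal of duplicates -/
def srt : ℕ → List ℕ → List ℕ
  | 0, l => l
  | _ + 1, [] => []
  | _ + 1, [x] => [x]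
  | n + 1, x :: y :: l => match spl (x :: y :: l) with
    | (a, b) => mrg 1000000 (srt n a) (srt n b)

/-- positions of the neighbours of `v` in the frontier -/
def nbs (E : List (ℕ × ℕ)) (v : ℕ) (fr : List ℕ) : List ℕ :=
  E.filterMap fun e => cond (Nat.beq e.1 v) (find e.2 fr 0)
    (cond (Nat.beq e.2 v) (find e.1 fr 0) none)

/-- pair of positions -/
def pr (a b : ℕ) (fr : List ℕ) : Option (ℕ × ℕ) :=
  match find a fr 0, find b fr 0 with
  | some i, some j => some (i, j)
  | _, _ => none

/-- positions of the other corners of the faces at `v` in the frontier -/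
def fcs (F : List (ℕ × ℕ × ℕ)) (v : ℕ) (fr : List ℕ) : List (ℕ × ℕ) :=
  F.filterMap fun f => cond (Nat.beq f.1 v) (pr f.2.1 f.2.2 fr)
    (cond (Nat.beq f.2.1 v) (pr f.1 f.2.2 fr) (cond (Nat.beq f.2.2 v) (pr f.1 f.2.1 fr) none))

/-- `c` is not in the list -/
def nin (c : ℕ) : List ℕ → Bool
  | [] => true
  | d :: l => cond (Nat.beq d c) false (nin c l)

/-- is some face pair all palette -/
def pal (s : ℕ) : List (ℕ × ℕ) → Bool
  | [] => false
  | p :: l => cond (Nat.ble 2 (get p.1 s)) (cond (Nat.ble 2 (get p.2 s)) true (pal s l)) (pal s l)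

/-- the extensions of one code by a colour of the new vertex -/
def ext (s : ℕ) (fb : List ℕ) (b : Bool) : List ℕ → List ℕ → List ℕ
  | [], acc => acc
  | c :: l, acc => cond (nin c fb) (cond b (cond (Nat.ble 2 c) (ext s fb b l acc)
      ((c + 8 * s) :: ext s fb b l acc)) ((c + 8 * s) :: ext s fb b l acc)) (ext s fb b l acc)

/-- all extensions -/
def exts (Lv ns : List ℕ) (fs : List (ℕ × ℕ)) : List ℕ → List ℕ
  | [] => []
  | s :: S => ext s (ns.map fun k => get k s) (pal s fs) Lv (exts Lv ns fs S)

/-- forget positions -/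
def fgt : List ℕ → List ℕ × List ℕ → List ℕ × List ℕ
  | [], x => x
  | k :: ks, x => fgt ks (x.1.eraseIdx k, x.2.map (del k))

/-- the dynamic program -/
def run (E : List (ℕ × ℕ)) (F : List (ℕ × ℕ × ℕ)) (Ls : List (List ℕ)) :
    List (ℕ × List ℕ) → List ℕ → List ℕ → Bool
  | [], _, S => S.isEmpty
  | (v, ds) :: prog, fr, S =>
    match fgt ds (v :: fr, exts (Ls.getD v []) (nbs E v fr) (fcs F v fr) S) with
    | (fr', S') => run E F Ls prog fr' (srt 40 S')

/-- the check -/
def dp (E : List (ℕ × ℕ)) (F : List (ℕ × ℕ × ℕ)) (Ls : List (List ℕ))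
    (prog : List (ℕ × List ℕ)) : Bool :=
  Ls.all (fun l => l.all fun c => Nat.ble c 7) && run E F Ls prog [] [0]

/-! ## Soundness -/

/-- the code of a colouring on the frontier -/
def enc (φ : ℕ → ℕ) : List ℕ → ℕ
  | [] => 0
  | v :: fr => φ v + 8 * enc φ fr

theorem get_enc (φ : ℕ → ℕ) : ∀ (fr : List ℕ) (k w : ℕ), (∀ v ∈ fr, φ v < 8) →
    fr[k]? = some w → get k (enc φ fr) = φ w := by
  intro fr
  induction fr with
  | nil => intro k w _ h; simp at h
  | cons v fr ih =>
    intro k w hlt h
    have hv : φ v < 8 := hlt v (List.mem_cons_self ..)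
    cases k with
    | zero =>
      simp only [List.getElem?_cons_zero, Option.some.injEq] at h
      subst h
      show (φ v + 8 * enc φ fr) % 8 = φ v
      omega
    | succ k =>
      simp only [List.getElem?_cons_succ] at h
      show get k ((φ v + 8 * enc φ fr) / 8) = φ w
      have : (φ v + 8 * enc φ fr) / 8 = enc φ fr := by omega
      rw [this]
      exact ih k w (fun u hu => hlt u (List.mem_cons_of_mem _ hu)) h

theorem del_zero : ∀ k, del k 0 = 0 := by
  intro k
  induction k with
  | zero => rfl
  | succ k ih =>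
    show 0 % 8 + 8 * del k (0 / 8) = 0
    rw [Nat.zero_div, ih]

theorem del_enc (φ : ℕ → ℕ) : ∀ (fr : List ℕ) (k : ℕ), (∀ v ∈ fr, φ v < 8) →
    del k (enc φ fr) = enc φ (fr.eraseIdx k) := by
  intro fr
  induction fr with
  | nil => intro k _; exact del_zero k
  | cons v fr ih =>
    intro k hlt
    have hv : φ v < 8 := hlt v (List.mem_cons_self ..)
    cases k with
    | zero =>
      show (φ v + 8 * enc φ fr) / 8 = enc φ fr
      omega
    | succ k =>
      show (φ v + 8 * enc φ fr) % 8 + 8 * del k ((φ v + 8 * enc φ fr) / 8) =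
        φ v + 8 * enc φ (fr.eraseIdx k)
      have h1 : (φ v + 8 * enc φ fr) / 8 = enc φ fr := by omega
      have h2 : (φ v + 8 * enc φ fr) % 8 = φ v := by omega
      rw [h1, h2, ih k (fun u hu => hlt u (List.mem_cons_of_mem _ hu))]

theorem find_spec (v : ℕ) : ∀ (ws : List ℕ) (k j : ℕ), find v ws k = some j →
    ∃ i, j = k + i ∧ ws[i]? = some v := by
  intro ws
  induction ws with
  | nil => intro k j h; simp [find] at h
  | cons w ws ih =>
    intro k j h
    unfold find at h
    cases hb : Nat.beq w v with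
    | true =>
      rw [hb] at h
      simp only [cond_true, Option.some.injEq] at h
      have : w = v := Nat.eq_of_beq_eq_true hb
      exact ⟨0, by omega, by simp [this]⟩
    | false =>
      rw [hb] at h
      simp only [cond_false] at h
      obtain ⟨i, hi, hw⟩ := ih (k + 1) j h
      exact ⟨i + 1, by omega, by simpa using hw⟩

theorem find_get (φ : ℕ → ℕ) (fr : List ℕ) (hlt : ∀ v ∈ fr, φ v < 8) (v j : ℕ)
    (h : find v fr 0 = some j) : get j (enc φ fr) = φ v := by
  obtain ⟨i, hi, hw⟩ := find_spec v fr 0 j h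
  have : j = i := by omega
  subst this
  exact get_enc φ fr j v hlt hw

theorem mem_mrg : ∀ (n : ℕ) (xs ys : List ℕ) (a : ℕ), a ∈ xs ∨ a ∈ ys → a ∈ mrg n xs ys := by
  intro n
  induction n with
  | zero => intro xs ys a h; unfold mrg; exact List.mem_append.2 h
  | succ n ih =>
    intro xs ys a h
    cases xs with
    | nil =>
      unfold mrg
      rcases h with h | h
      · simp at h
      · exact h
    | cons x xs =>
      cases ys with
      | nil =>
        unfold mrg
        rcases h with h | h
        · exact h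
        · simp at h
      | cons y ys =>
        unfold mrg
        cases hb : Nat.beq x y with
        | true =>
          have hxy : x = y := Nat.eq_of_beq_eq_true hb
          subst hxy
          simp only [cond_true, List.mem_cons] at h ⊢
          rcases h with (h | h) | (h | h)
          · exact Or.inl h
          · exact Or.inr (ih _ _ _ (Or.inl h))
          · exact Or.inl h
          · exact Or.inr (ih _ _ _ (Or.inr h))
        | false =>
          simp only [cond_false]
          cases hc : Nat.ble x y with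
          | true =>
            simp only [cond_true, List.mem_cons] at h ⊢
            rcases h with (h | h) | h
            · exact Or.inl h
            · exact Or.inr (ih _ _ _ (Or.inl h))
            · exact Or.inr (ih _ _ _ (Or.inr (List.mem_cons.2 h)))
          | false =>
            simp only [cond_false, List.mem_cons] at h ⊢
            rcases h with h | (h | h)
            · exact Or.inr (ih _ _ _ (Or.inl (List.mem_cons.2 h)))
            · exact Or.inl h
            · exact Or.inr (ih _ _ _ (Or.inr h))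

theorem mem_spl : ∀ (l : List ℕ) (a : ℕ), a ∈ l → a ∈ (spl l).1 ∨ a ∈ (spl l).2 := by
  intro l
  induction l with
  | nil => intro a h; simp at h
  | cons x l ih =>
    intro a h
    have e : spl (x :: l) = (x :: (spl l).2, (spl l).1) := rfl
    rw [e]
    rcases List.mem_cons.1 h with h | h
    · exact Or.inl (List.mem_cons.2 (Or.inl h))
    · rcases ih a h with h | h
      · exact Or.inr h
      · exact Or.inl (List.mem_cons.2 (Or.inr h))

theorem mem_srt : ∀ (n : ℕ) (l : List ℕ) (a : ℕ), a ∈ l → a ∈ srt n l := by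
  intro n
  induction n with
  | zero => intro l a h; exact h
  | succ n ih =>
    intro l a h
    match l, h with
    | [x], h => exact h
    | x :: y :: l, h =>
      have e : srt (n + 1) (x :: y :: l) = mrg 1000000 (srt n (spl (x :: y :: l)).1)
        (srt n (spl (x :: y :: l)).2) := rfl
      rw [e]
      apply mem_mrg
      rcases mem_spl _ a h with h | h
      · exact Or.inl (ih _ _ h)
      · exact Or.inr (ih _ _ h)

theorem nin_spec (c : ℕ) : ∀ l : List ℕ, (∀ d ∈ l, d ≠ c) → nin c l = true := by
  intro l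
  induction l with
  | nil => intro _; rfl
  | cons d l ih =>
    intro h
    unfold nin
    have h1 : Nat.beq d c = false := by
      cases hb : Nat.beq d c with
      | true => exact absurd (Nat.eq_of_beq_eq_true hb) (h d (List.mem_cons_self ..))
      | false => rfl
    rw [h1]
    exact ih fun d hd => h d (List.mem_cons_of_mem _ hd)

theorem pal_spec (s : ℕ) : ∀ l : List (ℕ × ℕ), pal s l = true →
    ∃ p ∈ l, 2 ≤ get p.1 s ∧ 2 ≤ get p.2 s := by
  intro l
  induction l with
  | nil => intro h; simp [pal] at h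
  | cons p l ih =>
    intro h
    unfold pal at h
    cases h1 : Nat.ble 2 (get p.1 s) with
    | true =>
      cases h2 : Nat.ble 2 (get p.2 s) with
      | true => exact ⟨p, List.mem_cons_self .., Nat.le_of_ble_eq_true h1,
          Nat.le_of_ble_eq_true h2⟩
      | false =>
        rw [h1, h2] at h
        obtain ⟨r, hr, h3⟩ := ih h
        exact ⟨r, List.mem_cons_of_mem _ hr, h3⟩
    | false =>
      rw [h1] at h
      obtain ⟨r, hr, h3⟩ := ih h
      exact ⟨r, List.mem_cons_of_mem _ hr, h3⟩

theorem mem_ext_acc (s : ℕ) (fb : List ℕ) (b : Bool) : ∀ (l acc : List ℕ) (a : ℕ), a ∈ acc →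
    a ∈ ext s fb b l acc := by
  intro l
  induction l with
  | nil => intro acc a h; exact h
  | cons c l ih =>
    intro acc a h
    unfold ext
    have h1 := ih acc a h
    cases nin c fb <;> cases b <;> cases Nat.ble 2 c <;>
      simp only [cond_true, cond_false, List.mem_cons] <;> tauto

theorem mem_ext (s : ℕ) (fb : List ℕ) (b : Bool) : ∀ (l acc : List ℕ) (c : ℕ), c ∈ l →
    nin c fb = true → (b = true → c < 2) → c + 8 * s ∈ ext s fb b l acc := by
  intro l
  induction l with
  | nil => intro acc c h; simp at h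
  | cons d l ih =>
    intro acc c h h1 h2
    unfold ext
    rcases List.mem_cons.1 h with h | h
    · subst h
      rw [h1]
      cases b with
      | false => simp
      | true =>
        have h3 : Nat.ble 2 c = false := by
          cases hb : Nat.ble 2 c with
          | true =>
            have := Nat.le_of_ble_eq_true hb
            have := h2 rfl
            omega
          | false => rfl
        rw [h3]
        simp
    · have h3 := ih acc c h h1 h2
      cases nin d fb <;> cases b <;> cases Nat.ble 2 d <;>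
        simp only [cond_true, cond_false, List.mem_cons] <;> tauto

theorem mem_exts (Lv ns : List ℕ) (fs : List (ℕ × ℕ)) (c s : ℕ) (hc : c ∈ Lv)
    (h1 : nin c (ns.map fun k => get k s) = true) (h2 : pal s fs = true → c < 2) :
    ∀ S : List ℕ, s ∈ S → c + 8 * s ∈ exts Lv ns fs S := by
  intro S
  induction S with
  | nil => intro h; simp at h
  | cons t S ih =>
    intro h
    unfold exts
    rcases List.mem_cons.1 h with h | h
    · subst h
      exact mem_ext _ _ _ _ _ _ hc h1 h2
    · exact mem_ext_acc _ _ _ _ _ _ (ih h)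

theorem fgt_spec (φ : ℕ → ℕ) : ∀ (ds : List ℕ) (x : List ℕ × List ℕ), (∀ v ∈ x.1, φ v < 8) →
    enc φ x.1 ∈ x.2 → (∀ v ∈ (fgt ds x).1, φ v < 8) ∧ enc φ (fgt ds x).1 ∈ (fgt ds x).2 := by
  intro ds
  induction ds with
  | nil => intro x h1 h2; exact ⟨h1, h2⟩
  | cons k ds ih =>
    intro x h1 h2
    have e : fgt (k :: ds) x = fgt ds (x.1.eraseIdx k, x.2.map (del k)) := rfl
    rw [e]
    apply ih
    · intro v hv
      exact h1 v (List.mem_of_mem_eraseIdx hv)
    · show enc φ (x.1.eraseIdx k) ∈ x.2.map (del k)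
      rw [← del_enc φ x.1 k h1]
      exact List.mem_map_of_mem h2

theorem nbs_spec (E : List (ℕ × ℕ)) (φ : ℕ → ℕ) (hE : ∀ e ∈ E, φ e.1 ≠ φ e.2) (v : ℕ)
    (fr : List ℕ) (hlt : ∀ v ∈ fr, φ v < 8) :
    ∀ k ∈ nbs E v fr, get k (enc φ fr) ≠ φ v := by
  intro k hk
  unfold nbs at hk
  rw [List.mem_filterMap] at hk
  obtain ⟨e, he, h⟩ := hk
  cases h1 : Nat.beq e.1 v with
  | true =>
    rw [h1] at h
    rw [find_get φ fr hlt _ _ h, ← Nat.eq_of_beq_eq_true h1]
    exact (hE e he).symm
  | false =>
    rw [h1] at h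
    cases h2 : Nat.beq e.2 v with
    | true =>
      rw [h2] at h
      rw [find_get φ fr hlt _ _ h, ← Nat.eq_of_beq_eq_true h2]
      exact hE e he
    | false =>
      rw [h2] at h
      simp at h

theorem pr_spec (φ : ℕ → ℕ) (fr : List ℕ) (hlt : ∀ v ∈ fr, φ v < 8) (a b : ℕ) (p : ℕ × ℕ)
    (h : pr a b fr = some p) : get p.1 (enc φ fr) = φ a ∧ get p.2 (enc φ fr) = φ b := by
  unfold pr at h
  cases h1 : find a fr 0 with
  | none => rw [h1] at h; simp at h
  | some i =>
    cases h2 : find b fr 0 with
    | none => rw [h1, h2] at h; simp at h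
    | some j =>
      rw [h1, h2] at h
      simp only [Option.some.injEq] at h
      subst h
      exact ⟨find_get φ fr hlt _ _ h1, find_get φ fr hlt _ _ h2⟩

theorem fcs_spec (F : List (ℕ × ℕ × ℕ)) (φ : ℕ → ℕ)
    (hF : ∀ f ∈ F, ¬ (2 ≤ φ f.1 ∧ 2 ≤ φ f.2.1 ∧ 2 ≤ φ f.2.2)) (v : ℕ) (fr : List ℕ)
    (hlt : ∀ v ∈ fr, φ v < 8) (h : pal (enc φ fr) (fcs F v fr) = true) : φ v < 2 := by
  obtain ⟨p, hp, h1, h2⟩ := pal_spec _ _ h
  unfold fcs at hp
  rw [List.mem_filterMap] at hp
  obtain ⟨f, hf, h3⟩ := hp
  have h4 := hF f hf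
  cases h5 : Nat.beq f.1 v with
  | true =>
    rw [h5] at h3
    obtain ⟨h6, h7⟩ := pr_spec φ fr hlt _ _ _ h3
    rw [h6] at h1
    rw [h7] at h2
    rw [Nat.eq_of_beq_eq_true h5] at h4
    omega
  | false =>
    rw [h5] at h3
    cases h8 : Nat.beq f.2.1 v with
    | true =>
      rw [h8] at h3
      obtain ⟨h6, h7⟩ := pr_spec φ fr hlt _ _ _ h3
      rw [h6] at h1
      rw [h7] at h2
      rw [Nat.eq_of_beq_eq_true h8] at h4
      omega
    | false =>
      rw [h8] at h3
      cases h9 : Nat.beq f.2.2 v with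
      | true =>
        rw [h9] at h3
        obtain ⟨h6, h7⟩ := pr_spec φ fr hlt _ _ _ h3
        rw [h6] at h1
        rw [h7] at h2
        rw [Nat.eq_of_beq_eq_true h9] at h4
        omega
      | false =>
        rw [h9] at h3
        simp at h3

theorem run_sound (E : List (ℕ × ℕ)) (F : List (ℕ × ℕ × ℕ)) (Ls : List (List ℕ)) (φ : ℕ → ℕ)
    (hb : ∀ v, ∀ c ∈ Ls.getD v [], c < 8)
    (hE : ∀ e ∈ E, φ e.1 ≠ φ e.2)
    (hF : ∀ f ∈ F, ¬ (2 ≤ φ f.1 ∧ 2 ≤ φ f.2.1 ∧ 2 ≤ φ f.2.2)) :
    ∀ (prog : List (ℕ × List ℕ)) (fr S : List ℕ),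
      (∀ p ∈ prog, φ p.1 ∈ Ls.getD p.1 []) → (∀ v ∈ fr, φ v < 8) → enc φ fr ∈ S →
      run E F Ls prog fr S = true → False := by
  intro prog
  induction prog with
  | nil =>
    intro fr S _ _ h3 h4
    unfold run at h4
    cases S with
    | nil => simp at h3
    | cons a S => simp at h4
  | cons p prog ih =>
    intro fr S h1 h2 h3 h4
    obtain ⟨v, ds⟩ := p
    have hv : φ v ∈ Ls.getD v [] := h1 (v, ds) (List.mem_cons_self ..)
    have e : run E F Ls ((v, ds) :: prog) fr S = run E F Ls prog
      (fgt ds (v :: fr, exts (Ls.getD v []) (nbs E v fr) (fcs F v fr) S)).1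
      (srt 40 (fgt ds (v :: fr, exts (Ls.getD v []) (nbs E v fr) (fcs F v fr) S)).2) := rfl
    rw [e] at h4
    have h5 : enc φ (v :: fr) ∈ exts (Ls.getD v []) (nbs E v fr) (fcs F v fr) S := by
      apply mem_exts _ _ _ _ _ hv _ (fcs_spec F φ hF v fr h2) _ h3
      apply nin_spec
      intro d hd
      rw [List.mem_map] at hd
      obtain ⟨k, hk, hd⟩ := hd
      rw [← hd]
      exact nbs_spec E φ hE v fr h2 k hk
    have h6 := fgt_spec φ ds (v :: fr, exts (Ls.getD v []) (nbs E v fr) (fcs F v fr) S)
      (by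
        intro u hu
        rcases List.mem_cons.1 hu with hu | hu
        · rw [hu]
          exact hb v _ hv
        · exact h2 u hu) h5
    exact ih _ _ (fun p hp => h1 p (List.mem_cons_of_mem _ hp)) h6.1 (mem_srt _ _ _ h6.2) h4

/-- no colouring -/
theorem dp_sound (E : List (ℕ × ℕ)) (F : List (ℕ × ℕ × ℕ)) (Ls : List (List ℕ))
    (prog : List (ℕ × List ℕ)) (h : dp E F Ls prog = true) (φ : ℕ → ℕ)
    (hL : ∀ p ∈ prog, φ p.1 ∈ Ls.getD p.1 [])
    (hE : ∀ e ∈ E, φ e.1 ≠ φ e.2)
    (hF : ∀ f ∈ F, ¬ (2 ≤ φ f.1 ∧ 2 ≤ φ f.2.1 ∧ 2 ≤ φ f.2.2)) : False := by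
  unfold dp at h
  rw [Bool.and_eq_true] at h
  refine run_sound E F Ls φ ?_ hE hF prog [] [0] hL (by intro v hv; simp at hv)
    (by simp [enc]) h.2
  intro v c hc
  have h1 := h.1
  rw [List.all_eq_true] at h1
  rw [List.getD_eq_getElem?_getD] at hc
  cases h2 : Ls[v]? with
  | none => rw [h2] at hc; simp at hc
  | some l =>
    rw [h2] at hc
    have h3 := h1 l (List.mem_of_getElem? h2)
    rw [List.all_eq_true] at h3
    have h4 := Nat.le_of_ble_eq_true (h3 c hc)
    omega

end Pool.Agent.H40.LamDP
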