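import Pool.Agent.H40.LamDP.CoreKills
import Pool.Agent.H76.TRI.DFin
import Pool.Agent.H89.LC.F29

/-!
# The final graph
-/

set_option autoImplicit false

namespace Pool.Agent.H40.LamDP

open Pool.TRI Pool.H89.LC

theorem fin_linkE : linkE E29 dFin.S = true := by decide +kernel

theorem fin_linkF : linkF F29 dFin.F = true := by decide +kernel

/-- a drawn graph with bipartite neighbourhoods, lists `{0, 1, c, d}` and no colouring -/
theorem final_graph : ∃ (n : ℕ) (G : SimpleGraph (Fin n)) (f : Fin n → ℝ × ℝ)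
    (L : Fin n → Finset ℕ), Drawn G f ∧ NBip G ∧ (∀ a, LL (L a)) ∧
    ¬ ∃ φ : Fin n → ℕ, (∀ a b, G.Adj a b → φ a ≠ φ b) ∧ ∀ a, φ a ∈ L a := by
  refine final_of_check dFin check_dFin (fun _ => {0, 1, 2, 3})
    (fun a _ => ⟨2, 3, by decide, by decide, by decide, by decide, by decide, rfl⟩)
    (fun _ a b c => K2 a b c) (fun _ _ => core_kills) ?_
  intro φ hE hL hF
  exact final_comb φ (linkE_spec fin_linkE hE) hL (linkF_spec (K := K2) fin_linkF hF)

end Pool.Agent.H40.LamDP
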